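import Pool.Agent.Helper98.PS.Spec

set_option autoImplicit false

namespace Pool.Agent.Helper19.PS

open Pool.Agent.Helper75.PM (LF PMin Kp cm tors divisible_part socle_sup)
open Pool.Agent.Helper98.PS

theorem DIV : S_DIV := by
  intro G _ E hlf hC
  obtain ⟨A, hAE, hi, hab, hs⟩ := hC
  let _ : CommGroup A := { (inferInstance : Group A) with
    mul_comm := fun a b => Subtype.ext (hab a a.2 b b.2) }
  have ht : ∀ a : A, IsOfFinOrder a := by
    intro a
    have h := tors hlf (a : G)
    exact Submonoid.isOfFinOrder_coe.1 h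
  have hs' : {a : A | ∃ q : ℕ, q.Prime ∧ a ^ q = 1}.Finite := by
    have h : {a : A | ∃ q : ℕ, q.Prime ∧ a ^ q = 1} ⊆ (fun a : A => (a : G)) ⁻¹' (Soc A) := by
      rintro a ⟨q, hq, ha⟩
      refine ⟨a.2, q, hq, ?_⟩
      have := congrArg (Subtype.val) ha
      simpa using this
    exact (hs.preimage (Subtype.val_injective.injOn)).subset h
  obtain ⟨D0, hD0, hdiv, -⟩ := divisible_part ht hs'
  have hDA : D0.map A.subtype ≤ A := Subgroup.map_subtype_le D0
  have hDi : (D0.map A.subtype).relIndex A ≠ 0 := by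
    have h : (D0.map A.subtype).subgroupOf A = D0 :=
      Subgroup.comap_map_eq_self_of_injective A.subtype_injective D0
    unfold Subgroup.relIndex
    rw [h]
    exact hD0
  have hDE : (D0.map A.subtype).relIndex E ≠ 0 := by
    rw [← Subgroup.relIndex_mul_relIndex _ _ _ hDA hAE]
    exact mul_ne_zero hDi hi
  have hDd : Divb (D0.map A.subtype) := by
    rintro _ ⟨a, ha, rfl⟩ m hm
    obtain ⟨b, hb, hba⟩ := hdiv a ha m hm
    refine ⟨(b : G), ⟨b, hb, rfl⟩, ?_⟩
    have := congrArg (Subtype.val) hba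
    simpa using this
  refine ⟨D0.map A.subtype, hDA.trans hAE, hDE, fun a ha b hb => hab a (hDA ha) b (hDA hb), hDd,
    hs.subset (fun a ha => ⟨hDA ha.1, ha.2⟩), ((D0.map A.subtype).relIndex E).factorial,
    Nat.factorial_pos _, ?_⟩
  intro g
  constructor
  · intro hg
    obtain ⟨b, hb, hbg⟩ := hDd g hg _ (Nat.factorial_pos _)
    exact ⟨b, hAE (hDA hb), hbg⟩
  · rintro ⟨e, he, rfl⟩
    have h := Subgroup.pow_mem_of_relIndex_ne_zero_of_dvd hDE he
      (n := ((D0.map A.subtype).relIndex E).factorial)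
      (fun m hm hm' => Nat.dvd_factorial hm hm')
    exact h.1

end Pool.Agent.Helper19.PS
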