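import Pool.Agent.Helper19.PS.SUP

set_option autoImplicit false

namespace Pool.Agent.Helper19.PS

open Pool.Agent.Helper75.PM (LF PMin Kp cm tors divisible_part socle_sup opp_ord)
open Pool.Agent.Helper98.PS

theorem cm_conj_mem {K : Type} [Group K] (T : Subgroup K) (hT : T.Normal) (g y e : K)
    (he : e ∈ cm T y) : g * e * g⁻¹ ∈ cm T (g * y * g⁻¹) := by
  unfold cm at he ⊢
  induction he using Subgroup.closure_induction with
  | mem a ha =>
    obtain ⟨n, hn, rfl⟩ := ha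
    exact Subgroup.subset_closure ⟨g * n * g⁻¹, hT.conj_mem n hn g, by group⟩
  | one => simpa using Subgroup.one_mem _
  | mul a b _ _ ha hb =>
    have h := Subgroup.mul_mem _ ha hb
    have h3 : g * (a * b) * g⁻¹ = g * a * g⁻¹ * (g * b * g⁻¹) := by group
    rwa [h3]
  | inv a _ ha =>
    have h := Subgroup.inv_mem _ ha
    have h3 : g * a⁻¹ * g⁻¹ = (g * a * g⁻¹)⁻¹ := by group
    rwa [h3]

theorem cm_conj_T {K : Type} [Group K] (T : Subgroup K) (t y : K) (ht : t ∈ T) :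
    cm T (t * y * t⁻¹) ≤ cm T y := by
  unfold cm
  rw [Subgroup.closure_le]
  rintro _ ⟨n, hn, rfl⟩
  have h1 : n * t * y * (n * t)⁻¹ * y⁻¹ ∈ Subgroup.closure {g | ∃ n ∈ T, g = n * y * n⁻¹ * y⁻¹} :=
    Subgroup.subset_closure ⟨n * t, T.mul_mem hn ht, rfl⟩
  have h2 : t * y * t⁻¹ * y⁻¹ ∈ Subgroup.closure {g | ∃ n ∈ T, g = n * y * n⁻¹ * y⁻¹} :=
    Subgroup.subset_closure ⟨t, ht, rfl⟩
  have h3 : n * (t * y * t⁻¹) * n⁻¹ * (t * y * t⁻¹)⁻¹ =
      (n * t * y * (n * t)⁻¹ * y⁻¹) * (t * y * t⁻¹ * y⁻¹)⁻¹ := by group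
  rw [SetLike.mem_coe, h3]
  exact Subgroup.mul_mem _ h1 (Subgroup.inv_mem _ h2)

theorem cm_nrm {K : Type} [Group K] (T : Subgroup K) (hT : T.Normal) (y : K) :
    cm T y ≤ T ∧ Nrm T (cm T y) := by
  constructor
  · unfold cm
    rw [Subgroup.closure_le]
    rintro g ⟨n, hn, rfl⟩
    have h1 := T.mul_mem hn (hT.conj_mem _ (T.inv_mem hn) y)
    have h3 : n * y * n⁻¹ * y⁻¹ = n * (y * n⁻¹ * y⁻¹) := by group
    rw [SetLike.mem_coe, h3]
    exact h1
  · intro t ht e he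
    exact cm_conj_T T t y ht (cm_conj_mem T hT t y e he)

theorem S0 (hS : S_SUPF) : S_S0 := by
  intro p K _ T hp hlf hT hpf hi hK hC
  classical
  have hfin : Finite (K ⧸ T) := (Nat.card_ne_zero.1 hi).2
  -- representatives
  have hrep : ∀ q : K ⧸ T, ∃ y : K, Pel p y ∧ ∀ z : K, Pel p z → QuotientGroup.mk z = q →
      (QuotientGroup.mk y : K ⧸ T) = q := by
    intro q
    by_cases h : ∃ z : K, Pel p z ∧ (QuotientGroup.mk z : K ⧸ T) = q
    · obtain ⟨z, h1, h2⟩ := h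
      exact ⟨z, h1, fun _ _ _ => h2⟩
    · refine ⟨1, ⟨0, by simp⟩, fun z hz hq => (h ⟨z, hz, hq⟩).elim⟩
  choose y hy hyq using hrep
  have hz : ∀ z : K, Pel p z → ∃ t ∈ T, z = t * y (QuotientGroup.mk z) := by
    intro z hz
    have h1 := hyq _ z hz rfl
    have h2 : (y (QuotientGroup.mk z))⁻¹ * z ∈ T := QuotientGroup.eq.1 h1
    have h3 := hT.conj_mem _ h2 (y (QuotientGroup.mk z))
    refine ⟨_, h3, by group⟩
  -- the family
  let S : Set (Subgroup K) := {E | ∃ (g : K) (q : K ⧸ T), E = cm T (g * y q * g⁻¹)}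
  have hSfin : S.Finite := by
    apply (Set.finite_range (fun r : (K ⧸ T) × (K ⧸ T) =>
      cm T (r.1.out * y r.2 * r.1.out⁻¹))).subset
    rintro _ ⟨g, q, rfl⟩
    refine ⟨(QuotientGroup.mk g, q), ?_⟩
    have h1 : ((QuotientGroup.mk g : K ⧸ T).out)⁻¹ * g ∈ T := by
      rw [← QuotientGroup.eq]
      exact QuotientGroup.out_eq' _
    show cm T ((QuotientGroup.mk g : K ⧸ T).out * y q * (QuotientGroup.mk g : K ⧸ T).out⁻¹) =
      cm T (g * y q * g⁻¹)
    generalize (QuotientGroup.mk g : K ⧸ T).out = a at h1 ⊢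
    -- a = t g with t in T
    have h2 : a * g⁻¹ ∈ T := by
      have h3 := hT.conj_mem _ (T.inv_mem h1) g
      have h4 : g * (a⁻¹ * g)⁻¹ * g⁻¹ = a * g⁻¹ := by
        rw [mul_inv_rev, inv_inv]
        group
      rwa [h4] at h3
    apply le_antisymm
    · have h3 := cm_conj_T T (a * g⁻¹) (g * y q * g⁻¹) h2
      have h4 : a * g⁻¹ * (g * y q * g⁻¹) * (a * g⁻¹)⁻¹ = a * y q * a⁻¹ := by group
      rwa [h4] at h3
    · have h3 := cm_conj_T T (a * g⁻¹)⁻¹ (a * y q * a⁻¹) (T.inv_mem h2)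
      have h4 : (a * g⁻¹)⁻¹ * (a * y q * a⁻¹) * (a * g⁻¹)⁻¹⁻¹ = g * y q * g⁻¹ := by group
      rwa [h4] at h3
  have hSE : ∀ E ∈ S, E ≤ T ∧ Nrm T E ∧ Cher E := by
    rintro _ ⟨g, q, rfl⟩
    refine ⟨(cm_nrm T hT _).1, (cm_nrm T hT _).2, hC _ ?_⟩
    obtain ⟨k, hk⟩ := hy q
    exact ⟨k, by rw [conj_pow, hk]; simp⟩
  have hD : Cher (sSup S) := hS K S T hlf hSfin hSE
  set D := sSup S with hDdef
  have hDn : D.Normal := by
    constructor
    intro d hd g
    have h1 : D.map (MulAut.conj g).toMonoidHom ≤ D := by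
      rw [Subgroup.map_le_iff_le_comap]
      apply sSup_le
      rintro E ⟨g', q, rfl⟩ e he
      rw [Subgroup.mem_comap]
      have h2 := cm_conj_mem T hT g _ e he
      have h3 : cm T (g * (g' * y q * g'⁻¹) * g⁻¹) ≤ D := by
        apply le_sSup
        exact ⟨g * g', q, by congr 1; group⟩
      exact h3 h2
    exact h1 ⟨d, hd, rfl⟩
  -- the finite group
  let F : Subgroup K := Subgroup.closure (Set.range y)
  have hFfin : (F : Set K).Finite := hlf _ (Set.finite_range y)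
  have hTF : T ⊔ F = ⊤ := by
    rw [eq_top_iff, ← hK]
    unfold Kp
    rw [Subgroup.closure_le]
    intro z hz1
    obtain ⟨t, ht, h⟩ := hz z hz1
    rw [h]
    exact Subgroup.mul_mem_sup ht (Subgroup.subset_closure ⟨_, rfl⟩)
  have hLn : (F ⊔ D).Normal := by
    have hFn : ∀ g ∈ F, ∀ l ∈ F ⊔ D, g * l * g⁻¹ ∈ F ⊔ D := by
      intro g hg l hl
      have h1 : g ∈ F ⊔ D := (le_sup_left : F ≤ F ⊔ D) hg
      exact (F ⊔ D).mul_mem ((F ⊔ D).mul_mem h1 hl) ((F ⊔ D).inv_mem h1)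
    have hTn : ∀ t ∈ T, ∀ l ∈ F ⊔ D, t * l * t⁻¹ ∈ F ⊔ D := by
      intro t ht l hl
      have h1 : (F ⊔ D).map (MulAut.conj t).toMonoidHom ≤ F ⊔ D := by
        rw [Subgroup.map_le_iff_le_comap]
        apply sup_le
        · show Subgroup.closure (Set.range y) ≤ _
          rw [Subgroup.closure_le]
          rintro _ ⟨q, rfl⟩
          rw [SetLike.mem_coe, Subgroup.mem_comap]
          have h2 : t * y q * t⁻¹ * (y q)⁻¹ ∈ D := by
            have h3 : cm T (y q) ≤ D := by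
              apply le_sSup
              exact ⟨1, q, by congr 1; group⟩
            exact h3 (Subgroup.subset_closure ⟨t, ht, rfl⟩)
          have h4 : y q ∈ F ⊔ D := (le_sup_left : F ≤ F ⊔ D) (Subgroup.subset_closure ⟨q, rfl⟩)
          have h5 := (F ⊔ D).mul_mem ((le_sup_right : D ≤ F ⊔ D) h2) h4
          have h6 : t * y q * t⁻¹ * (y q)⁻¹ * y q = t * y q * t⁻¹ := by group
          rw [h6] at h5
          exact h5
        · intro d hd
          rw [Subgroup.mem_comap]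
          exact (le_sup_right : D ≤ F ⊔ D) (hDn.conj_mem d hd t)
      exact h1 ⟨l, hl, rfl⟩
    constructor
    intro l hl g
    have hg : g ∈ T ⊔ F := by rw [hTF]; trivial
    haveI := hT
    obtain ⟨t, ht, f, hf, rfl⟩ := Subgroup.mem_sup_of_normal_left.1 hg
    have h1 := hTn t ht _ (hFn f hf l hl)
    have h2 : t * f * l * (t * f)⁻¹ = t * (f * l * f⁻¹) * t⁻¹ := by group
    rwa [h2]
  have hLtop : F ⊔ D = ⊤ := by
    rw [eq_top_iff, ← hK]
    unfold Kp
    rw [Subgroup.closure_le]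
    intro z hz1
    obtain ⟨t, ht, h⟩ := hz z hz1
    obtain ⟨k, hk⟩ := hz1
    have hf : y (QuotientGroup.mk z) ∈ F ⊔ D :=
      (le_sup_left : F ≤ F ⊔ D) (Subgroup.subset_closure ⟨_, rfl⟩)
    -- t ^ (p ^ k) is in the normal subgroup
    have h1 : t ^ (p ^ k) ∈ F ⊔ D := by
      haveI := hLn
      rw [← QuotientGroup.eq_one_iff]
      have h2 : (QuotientGroup.mk z : K ⧸ (F ⊔ D)) = QuotientGroup.mk t := by
        rw [QuotientGroup.eq]
        have h3 : z⁻¹ * t = (y (QuotientGroup.mk z))⁻¹ := by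
          nth_rewrite 1 [h]
          group
        rw [h3]
        exact (F ⊔ D).inv_mem hf
      rw [QuotientGroup.mk_pow, ← h2, ← QuotientGroup.mk_pow, hk]
      rfl
    have h2 := opp_ord p hp hlf T hpf t ht
    have h3 : Nat.Coprime (orderOf t) (p ^ k) := (Nat.Coprime.pow_left k h2.2).symm
    obtain ⟨j, hj⟩ := exists_pow_eq_self_of_coprime h3.symm
    have h4 : t ∈ F ⊔ D := by
      rw [← hj]
      exact (F ⊔ D).pow_mem h1 j
    rw [SetLike.mem_coe, h]
    exact (F ⊔ D).mul_mem h4 hf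
  have hDi : D.relIndex ⊤ ≠ 0 := by
    apply relIndex_of_cover D ⊤ (F : Set K) hFfin
    intro g _
    have hg : g ∈ F ⊔ D := by rw [hLtop]; trivial
    haveI := hDn
    obtain ⟨f, hf, d, hd, rfl⟩ := Subgroup.mem_sup_of_normal_right.1 hg
    exact ⟨f, hf, by rw [inv_mul_cancel_left]; exact hd⟩
  obtain ⟨A, hAD, hAi, hAab, hAs⟩ := hD
  exact ⟨A, le_top, Subgroup.relIndex_ne_zero_trans hAi hDi, hAab, hAs⟩

end Pool.Agent.Helper19.PS
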