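import Pool.Agent.Helper98.PS.Spec

set_option autoImplicit false

namespace Pool.Agent.Helper19.PS

open Pool.Agent.Helper75.PM (LF PMin Kp cm tors divisible_part socle_sup)
open Pool.Agent.Helper98.PS

/-- finitely many cosets cover: finite relative index -/
theorem relIndex_of_cover {G : Type} [Group G] (H K : Subgroup G) (F : Set G) (hF : F.Finite)
    (h : ∀ k ∈ K, ∃ f ∈ F, f⁻¹ * k ∈ H) : H.relIndex K ≠ 0 := by
  classical
  have hK : ∀ k : K, ∃ f : F, (f : G)⁻¹ * k ∈ H := by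
    intro k
    obtain ⟨f, hf, h1⟩ := h k k.2
    exact ⟨⟨f, hf⟩, h1⟩
  choose c hc using hK
  have := hF.to_subtype
  have hfin : Finite (K ⧸ H.subgroupOf K) := by
    apply Finite.of_injective (fun q : K ⧸ H.subgroupOf K => c q.out)
    intro q r hqr
    have hqr' : c q.out = c r.out := hqr
    rw [← QuotientGroup.out_eq' q, ← QuotientGroup.out_eq' r]
    rw [QuotientGroup.eq, Subgroup.mem_subgroupOf]
    have h1 := hc q.out
    have h2 := hc r.out
    rw [hqr'] at h1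
    have h3 := H.mul_mem (H.inv_mem h1) h2
    generalize Quotient.out q = q' at h3 ⊢
    generalize Quotient.out r = r' at h3 ⊢
    generalize ((c r' : F) : G) = f at h3
    have h4 : ((f⁻¹ * (q' : G))⁻¹ * (f⁻¹ * (r' : G))) = ((q'⁻¹ * r' : K) : G) := by
      push_cast
      group
    rw [h4] at h3
    exact h3
  unfold Subgroup.relIndex Subgroup.index
  exact Nat.card_ne_zero.2 ⟨⟨QuotientGroup.mk 1⟩, hfin⟩

/-- the converse -/
theorem cover_of_relIndex {G : Type} [Group G] (H K : Subgroup G) (h : H.relIndex K ≠ 0) :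
    ∃ F : Set G, F.Finite ∧ (∀ f ∈ F, f ∈ K) ∧ ∀ k ∈ K, ∃ f ∈ F, f⁻¹ * k ∈ H := by
  have hfin : Finite (K ⧸ H.subgroupOf K) := (Nat.card_ne_zero.1 h).2
  refine ⟨Set.range (fun q : K ⧸ H.subgroupOf K => ((q.out : K) : G)), Set.finite_range _, ?_, ?_⟩
  · rintro _ ⟨q, rfl⟩
    exact q.out.2
  · intro k hk
    refine ⟨_, ⟨QuotientGroup.mk ⟨k, hk⟩, rfl⟩, ?_⟩
    have h1 := QuotientGroup.out_eq' (QuotientGroup.mk (⟨k, hk⟩ : K) : K ⧸ H.subgroupOf K)
    rw [QuotientGroup.eq, Subgroup.mem_subgroupOf] at h1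
    simpa using h1

theorem mem_sup_nrm {G : Type} [Group G] (A B : Subgroup G) (h : Nrm B A) (g : G)
    (hg : g ∈ A ⊔ B) : ∃ a ∈ A, ∃ b ∈ B, g = a * b := by
  rw [Subgroup.sup_eq_closure] at hg
  induction hg using Subgroup.closure_induction with
  | mem g hg =>
    rcases hg with hg | hg
    · exact ⟨g, hg, 1, B.one_mem, by simp⟩
    · exact ⟨1, A.one_mem, g, hg, by simp⟩
  | one => exact ⟨1, A.one_mem, 1, B.one_mem, by simp⟩
  | mul x y _ _ hx hy =>
    obtain ⟨a, ha, b, hb, rfl⟩ := hx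
    obtain ⟨a', ha', b', hb', rfl⟩ := hy
    exact ⟨a * (b * a' * b⁻¹), A.mul_mem ha (h b hb a' ha'), b * b', B.mul_mem hb hb', by group⟩
  | inv x _ hx =>
    obtain ⟨a, ha, b, hb, rfl⟩ := hx
    have h1 := h b⁻¹ (B.inv_mem hb) a⁻¹ (A.inv_mem ha)
    rw [inv_inv] at h1
    exact ⟨b⁻¹ * a⁻¹ * b, h1, b⁻¹, B.inv_mem hb, by group⟩

theorem SUP (hD : S_DIV) (hC : S_COM) : S_SUP := by
  intro G _ A B hlf hA hB hBA hAB
  obtain ⟨D, hDA, hDi, hDab, hDd, hDs, m, hm, hDm⟩ := hD G A hlf hA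
  obtain ⟨E, hEB, hEi, hEab, hEd, hEs, n, hn, hEn⟩ := hD G B hlf hB
  have hBD : Nrm B D := by
    intro b hb d hd
    obtain ⟨a, ha, rfl⟩ := (hDm d).1 hd
    refine (hDm _).2 ⟨b * a * b⁻¹, hBA b hb a ha, ?_⟩
    rw [conj_pow]
  have hAE : Nrm A E := by
    intro a ha e he
    obtain ⟨b, hb, rfl⟩ := (hEn e).1 he
    refine (hEn _).2 ⟨a * b * a⁻¹, hAB a ha b hb, ?_⟩
    rw [conj_pow]
  have hcom := hC G D E (fun a _ => tors hlf a) hDab hEab hEd
    (fun e he d hd => hBD e (hEB he) d hd) (fun d hd e he => hAE d (hDA hd) e he)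
  have hprod : ∀ g ∈ D ⊔ E, ∃ d ∈ D, ∃ e ∈ E, g = d * e :=
    fun g hg => mem_sup_nrm D E (fun e he d hd => hBD e (hEB he) d hd) g hg
  have hab : Abel (D ⊔ E) := by
    intro a ha b hb
    obtain ⟨d, hd, e, he, rfl⟩ := hprod a ha
    obtain ⟨d', hd', e', he', rfl⟩ := hprod b hb
    calc d * e * (d' * e') = d * (e * d') * e' := by group
      _ = d * (d' * e) * e' := by rw [hcom d' hd' e he]
      _ = (d * d') * (e * e') := by group
      _ = (d' * d) * (e' * e) := by rw [hDab d hd d' hd', hEab e he e' he']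
      _ = d' * (d * e') * e := by group
      _ = d' * (e' * d) * e := by rw [hcom d hd e' he']
      _ = d' * e' * (d * e) := by group
  refine ⟨D ⊔ E, sup_le_sup hDA hEB, ?_, hab, ?_⟩
  · obtain ⟨F, hF, hFA, hFc⟩ := cover_of_relIndex D A hDi
    obtain ⟨F', hF', hFB, hFc'⟩ := cover_of_relIndex E B hEi
    apply relIndex_of_cover (D ⊔ E) (A ⊔ B) ((fun x : G × G => x.1 * x.2) '' (F ×ˢ F'))
      ((hF.prod hF').image _)
    intro g hg
    obtain ⟨a, ha, b, hb, rfl⟩ := mem_sup_nrm A B hBA g hg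
    obtain ⟨f, hf, h1⟩ := hFc a ha
    obtain ⟨f', hf', h2⟩ := hFc' b hb
    refine ⟨f * f', ⟨(f, f'), ⟨hf, hf'⟩, rfl⟩, ?_⟩
    have h3 := hBD f'⁻¹ (B.inv_mem (hFB f' hf')) _ h1
    rw [inv_inv] at h3
    have h4 : (f * f')⁻¹ * (a * b) = (f'⁻¹ * (f⁻¹ * a) * f') * (f'⁻¹ * b) := by group
    rw [h4]
    exact Subgroup.mul_mem_sup h3 h2
  · have h1 : D ⊔ E = ⨆ i : Bool, (bif i then D else E) := by
      rw [iSup_bool_eq]
      rfl
    have h2 := socle_sup (D ⊔ E) hab (fun a _ => tors hlf a) Bool (fun i => bif i then D else E)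
      (by intro i; cases i <;> simp) (by
        intro i
        cases i
        · exact hEs
        · exact hDs)
    rw [← h1] at h2
    exact h2

theorem SUPF (hS : S_SUP) : S_SUPF := by
  intro G _ S T hlf hSf
  induction S, hSf using Set.Finite.induction_on with
  | empty =>
    intro _
    rw [sSup_empty]
    refine ⟨⊥, le_rfl, by simp, ?_, ?_⟩
    · intro a ha b hb
      rw [Subgroup.mem_bot.1 ha, Subgroup.mem_bot.1 hb]
    · apply (Set.finite_singleton (1 : G)).subset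
      rintro a ⟨ha, -⟩
      exact Subgroup.mem_bot.1 ha
  | @insert E S _ _ ih =>
    intro h
    have hS' : ∀ E' ∈ S, E' ≤ T ∧ Nrm T E' ∧ Cher E' := fun E' hE' => h E' (Set.mem_insert_of_mem _ hE')
    have hE := h E (Set.mem_insert _ _)
    have hle : sSup S ≤ T := sSup_le fun E' hE' => (hS' E' hE').1
    have hnr : Nrm T (sSup S) := by
      intro t ht e he
      have h1 : (sSup S).map (MulAut.conj t).toMonoidHom ≤ sSup S := by
        rw [Subgroup.map_le_iff_le_comap]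
        apply sSup_le
        intro E' hE' x hx
        rw [Subgroup.mem_comap]
        exact (le_sSup hE' : E' ≤ sSup S) ((hS' E' hE').2.1 t ht x hx)
      exact h1 ⟨e, he, rfl⟩
    rw [sSup_insert]
    exact hS G E (sSup S) hlf hE.2.2 (ih hS') (fun b hb a ha => hE.2.1 b (hle hb) a ha)
      (fun a ha b hb => hnr a (hE.1 ha) b hb)

end Pool.Agent.Helper19.PS
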